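import Pool.Agent.PLX.StmtsA

/-!
# Squad PLX (MP_1fc801_co), row SLC: sums over consecutive lines
-/

set_option autoImplicit false

namespace Pool.Agent.PLX.H7

open Module

/-- **SLC**. -/
theorem slc (sol : SolStmt) : SlcStmt := by
  classical
  intro A _ _ E _ _ Φ f G Θ r q hD hr hq hP hΘ
  have hcnt : (0 : ℝ) ≤ cnt f G (2 * r) := Nat.cast_nonneg _
  rcases Nat.lt_or_ge Θ.card 2 with h2 | h2
  · have h3 : (Θ.card : ℝ) ≤ 1 := by
      have : Θ.card ≤ 1 := by omega
      exact_mod_cast this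
    nlinarith [sq_nonneg q]
  · obtain ⟨n, hn⟩ : ∃ n, Θ.card = n + 1 := ⟨Θ.card - 1, by omega⟩
    let o := Θ.orderEmbOfFin hn
    let t : ℕ → ℝ := fun i => if h : i < n + 1 then o ⟨i, h⟩ else 0
    have ht : ∀ i, ∀ h : i < n + 1, t i = o ⟨i, h⟩ := fun i h => dif_pos h
    have htm : ∀ i < n, t i < t (i + 1) := by
      intro i hi
      rw [ht i (by omega), ht (i + 1) (by omega)]
      exact o.strictMono (by simp [Fin.lt_def])
    have htΘ : ∀ i ≤ n, t i ∈ Θ := by
      intro i hi
      rw [ht i (by omega)]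
      exact Finset.orderEmbOfFin_mem Θ hn _
    let S : ℕ → Finset A := fun i => ps Φ f (lp Φ G (t i)) r
    have hS : ∀ i, ∀ x ∈ S i, x ∈ G ∧ (Φ x).im = t i * (Φ x).re ∧ ‖f x‖ ≤ r ∧ 0 < (Φ x).re := by
      intro i x hx
      have h := (mem_ps (hD.lp (t i))).1 hx
      exact ⟨h.1.1, h.1.2, h.2.1, h.2.2⟩
    have hSc : ∀ i ≤ n, q / 3 ≤ (S i).card := by
      intro i hi
      have h1 := hΘ (t i) (htΘ i hi)
      have h3 := card_ps_lp hD hr hP (by linarith) (t i)
      have h4 : (cnt f (lp Φ G (t i)) r : ℝ) = 2 * ((S i).card : ℝ) + 1 := by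
        rw [h3]
        push_cast
        rfl
      rw [h4] at h1
      linarith
    have hinj : ∀ x x' : A, x ∈ G → x' ∈ G → ‖f x‖ ≤ r → ‖f x'‖ ≤ r → Φ x = Φ x' → x = x' := by
      intro x x' hx hx' h1 h1' h
      have h5 := hP (x - x') (G.sub_mem hx hx') (by
        rw [map_sub]
        exact (norm_sub_le _ _).trans (by linarith)) (by rw [map_sub, h, sub_self])
      exact sub_eq_zero.1 h5
    -- the triples
    let T : Finset (Σ _ : ℕ, A × A) := (Finset.range n).sigma fun i => S i ×ˢ S (i + 1)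
    have hT : T.card ≤ (bl f G (2 * r)).card := by
      refine Finset.card_le_card_of_injOn (fun p => p.2.1 + p.2.2) ?_ ?_
      · rintro ⟨i, x, y⟩ hp
        have hp' := Finset.mem_sigma.1 (Finset.mem_coe.1 hp)
        have hxy := Finset.mem_product.1 hp'.2
        have hx := hS i x hxy.1
        have hy := hS (i + 1) y hxy.2
        rw [Finset.mem_coe, two_mul]
        exact add_mem_bl hD ((mem_bl hD).2 ⟨hx.1, hx.2.2.1⟩) ((mem_bl hD).2 ⟨hy.1, hy.2.2.1⟩)
      · rintro ⟨i, x, y⟩ hp ⟨i', x', y'⟩ hp' heq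
        have h1 := Finset.mem_sigma.1 (Finset.mem_coe.1 hp)
        have h1' := Finset.mem_sigma.1 (Finset.mem_coe.1 hp')
        have hxy := Finset.mem_product.1 h1.2
        have hxy' := Finset.mem_product.1 h1'.2
        have hx := hS i x hxy.1
        have hy := hS (i + 1) y hxy.2
        have hx' := hS i' x' hxy'.1
        have hy' := hS (i' + 1) y' hxy'.2
        have heq' : Φ x + Φ y = Φ x' + Φ y' := by
          have h3 : x + y = x' + y' := heq
          rw [← map_add, ← map_add, h3]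
        obtain ⟨e1, e2, e3⟩ := sol n t htm i i' (Finset.mem_range.1 h1.1)
          (Finset.mem_range.1 h1'.1) (Φ x) (Φ y) (Φ x') (Φ y') hx.2.1 hx.2.2.2 hy.2.1 hy.2.2.2
          hx'.2.1 hx'.2.2.2 hy'.2.1 hy'.2.2.2 heq'
        have e2' := hinj x x' hx.1 hx'.1 hx.2.2.1 hx'.2.2.1 e2
        have e3' := hinj y y' hy.1 hy'.1 hy.2.2.1 hy'.2.2.1 e3
        subst e1
        subst e2'
        subst e3'
        rfl
    have hTc : (n : ℝ) * (q / 3) ^ 2 ≤ T.card := by
      have h1 : T.card = ∑ i ∈ Finset.range n, (S i).card * (S (i + 1)).card := by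
        rw [Finset.card_sigma]
        exact Finset.sum_congr rfl fun i _ => Finset.card_product _ _
      rw [h1]
      push_cast
      have h4 : ∑ i ∈ Finset.range n, (q / 3) ^ 2
          ≤ ∑ i ∈ Finset.range n, ((S i).card : ℝ) * ((S (i + 1)).card : ℝ) := by
        refine Finset.sum_le_sum fun i hi => ?_
        have hi' := Finset.mem_range.1 hi
        rw [sq]
        exact mul_le_mul (hSc i (by omega)) (hSc (i + 1) (by omega)) (by linarith)
          (Nat.cast_nonneg _)
      rw [Finset.sum_const, Finset.card_range, nsmul_eq_mul] at h4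
      exact h4
    have h5 : (T.card : ℝ) ≤ cnt f G (2 * r) := by
      exact_mod_cast hT
    rw [hn]
    push_cast
    nlinarith [hTc, h5]

end Pool.Agent.PLX.H7
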