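import Pool.Agent.PLX.StmtsB

/-!
# Squad PLX (MP_1fc801_co), row TKG: transport
-/

set_option autoImplicit false

namespace Pool.Agent.PLX.H7

open Module

section

variable {A : Type} [AddCommGroup A] [Module ℚ A] {E : Type} [NormedAddCommGroup E]

/-- the plane map on a rational subspace -/
def phr (Φ : A →+ ℂ) (M : Submodule ℚ A) : M →+ ℂ := Φ.comp M.subtype.toAddMonoidHom

theorem phr_apply (Φ : A →+ ℂ) (M : Submodule ℚ A) (y : M) : phr Φ M y = Φ y := rfl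

theorem lp_Gr (Φ : A →+ ℂ) (G : AddSubgroup A) (M : Submodule ℚ A) (t : ℝ) :
    lp (phr Φ M) (Gr G M) t = Gr (lp Φ G t) M := by
  ext y
  rfl

theorem lz_Gr (Φ : A →+ ℂ) (G : AddSubgroup A) (M : Submodule ℚ A) (z : ℂ) :
    lz (phr Φ M) (Gr G M) z = Gr (lz Φ G z) M := by
  ext y
  rfl

theorem cut_eq {G : AddSubgroup A} {M : Submodule ℚ A} (h : ∀ x ∈ G, x ∈ M) : cut G M = G := by
  ext x
  rw [mem_cut]
  exact ⟨fun hx => hx.1, fun hx => ⟨hx, h x hx⟩⟩

end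

/-- **TKG**. -/
theorem tkg : TkgStmt := by
  intro d c C hk A _ _ E _ _ Φ f G Θ L j hfin hD hd hL hj hP hbs hΘ hc
  have hsp : ∀ x ∈ G, x ∈ sp G := fun x hx => le_sp hx
  have hcG : cut G (sp G) = G := cut_eq hsp
  have hcl : ∀ t, cut (lp Φ G t) (sp G) = lp Φ G t := fun t => cut_eq fun x hx => hsp x hx.1
  have hcz : ∀ z, cut (lz Φ G z) (sp G) = lz Φ G z := fun z => cut_eq fun x hx => hsp x (lz_le hx)
  have hnG : ∀ r, cnt (fr f (sp G)) (Gr G (sp G)) r = cnt f G r := by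
    intro r
    rw [cnt_fr hD, hcG]
  have hnl : ∀ t r, cnt (fr f (sp G)) (lp (phr Φ (sp G)) (Gr G (sp G)) t) r
      = cnt f (lp Φ G t) r := by
    intro t r
    rw [lp_Gr, cnt_fr (hD.lp t), hcl]
  have hnz : ∀ z r, cnt (fr f (sp G)) (lz (phr Φ (sp G)) (Gr G (sp G)) z) r
      = cnt f (lz Φ G z) r := by
    intro z r
    rw [lz_Gr, cnt_fr (hD.lz z), hcz]
  have hD' : Dsc (fr f (sp G)) (Gr G (sp G)) := hD.fr (sp G)
  have hP' : Ppr (phr Φ (sp G)) (fr f (sp G)) (Gr G (sp G)) (L ^ C) := by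
    intro y hy h1 h2
    have h3 := hP (y : A) hy h1 h2
    exact Subtype.ext h3
  have hbs' : bs (fr f (sp G)) (Gr G (sp G)) (1 / L ^ c) = ⊤ := by
    -- the image in `A` of the left side is `bs f G (1 / L ^ c)`
    have h1 : (bs (fr f (sp G)) (Gr G (sp G)) (1 / L ^ c)).map (sp G).subtype
        = bs f G (1 / L ^ c) := by
      unfold bs
      rw [Submodule.map_span]
      congr 1
      have h2 := bl_fr hD (sp G) (1 / L ^ c)
      rw [hcG] at h2
      rw [← h2, Finset.coe_map]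
      rfl
    have h2 : sp G ≤ bs f G (1 / L ^ c) := Submodule.span_le.2 fun x hx => hbs x hx
    rw [eq_top_iff]
    rintro ⟨x, hx⟩ -
    have h3 : x ∈ (bs (fr f (sp G)) (Gr G (sp G)) (1 / L ^ c)).map (sp G).subtype := by
      rw [h1]
      exact h2 hx
    obtain ⟨y, hy, hyx⟩ := Submodule.mem_map.1 h3
    have h4 : y = ⟨x, hx⟩ := Subtype.ext hyx
    rwa [h4] at hy
  obtain ⟨z, hz, h⟩ := hk (sp G) E (phr Φ (sp G)) (fr f (sp G)) (Gr G (sp G)) Θ L j hfin hD' hd hL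
    hj hP' hbs' (fun t ht => by rw [hnl]; exact hΘ t ht) (by rw [hnG]; exact hc)
  refine ⟨z, hz, ?_⟩
  rw [hnG, hnz] at h
  exact h

end Pool.Agent.PLX.H7
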